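import Mathlib

/-!
# Sets whose gaps lie in a generalised arithmetic progression contain Hilbert cubes
-/

set_option autoImplicit false

open Finset

namespace Pool.Agent.W99.ET

/-- The number of ordered pairs of elements of `A` with sum `n`. -/
noncomputable def rep (A : Set ℕ) (n : ℕ) : ℕ :=
  {p : ℕ × ℕ | p.1 ∈ A ∧ p.2 ∈ A ∧ p.1 + p.2 = n}.ncard

/-- The cube `x + {0, h₁} + ⋯ + {0, h_m}` is contained in `A`. -/
def Cube (A : Set ℕ) : ℕ → List ℕ → Prop
  | x, [] => x ∈ A
  | x, h :: t => Cube A x t ∧ Cube A (x + h) t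

theorem Cube.bot {A : Set ℕ} : ∀ {l : List ℕ} {x : ℕ}, Cube A x l → x ∈ A
  | [], _, h => h
  | _ :: _, _, h => Cube.bot h.1

theorem Cube.top {A : Set ℕ} : ∀ {l : List ℕ} {x : ℕ}, Cube A x l → x + l.sum ∈ A
  | [], _, h => by simpa [Cube] using h
  | h :: t, x, hc => by
      have := Cube.top hc.2
      rw [List.sum_cons, ← add_assoc]
      exact this

theorem reps {A : Set ℕ} : ∀ (l : List ℕ) (x y : ℕ), (∀ h ∈ l, 0 < h) → Cube A x l → Cube A y l →
    ∃ S : Finset ℕ, l.length + 1 ≤ S.card ∧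
      ∀ u ∈ S, x ≤ u ∧ u ∈ A ∧ ∃ v ∈ A, u + v = x + y + l.sum
  | [], x, y, _, hx, hy => ⟨{x}, by simp, by
      intro u hu
      rw [Finset.mem_singleton] at hu
      subst hu
      exact ⟨le_refl _, hx, y, hy, by simp⟩⟩
  | h :: t, x, y, hpos, hx, hy => by
      obtain ⟨S, hS, hS2⟩ := reps t (x + h) y (fun k hk => hpos k (List.mem_cons_of_mem _ hk))
        hx.2 hy.1
      have hh : 0 < h := hpos h List.mem_cons_self
      have hxS : x ∉ S := by
        intro hc
        have := (hS2 x hc).1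
        omega
      refine ⟨insert x S, ?_, ?_⟩
      · rw [Finset.card_insert_of_notMem hxS, List.length_cons]
        omega
      · intro u hu
        rw [Finset.mem_insert] at hu
        rcases hu with rfl | hu
        · refine ⟨le_refl _, hx.bot, y + h + t.sum, hy.2.top, ?_⟩
          rw [List.sum_cons]
          ring
        · obtain ⟨h1, h2, v, h3, h4⟩ := hS2 u hu
          refine ⟨by omega, h2, v, h3, ?_⟩
          rw [h4, List.sum_cons]
          ring

theorem rep_of_cube {A : Set ℕ} {l : List ℕ} {x : ℕ} (hpos : ∀ h ∈ l, 0 < h)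
    (hx : Cube A x l) : l.length + 1 ≤ rep A (x + x + l.sum) := by
  obtain ⟨S, hS, hS2⟩ := reps l x x hpos hx hx
  refine hS.trans ?_
  unfold rep
  have hfin : {p : ℕ × ℕ | p.1 ∈ A ∧ p.2 ∈ A ∧ p.1 + p.2 = x + x + l.sum}.Finite := by
    refine ((Finset.range (x + x + l.sum + 1) ×ˢ Finset.range (x + x + l.sum + 1)).finite_toSet).subset
      ?_
    rintro ⟨p, q⟩ ⟨_, _, h⟩
    simp only [Finset.coe_product, Finset.coe_range, Set.mem_prod, Set.mem_Iio]
    simp only at h
    omega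
  rw [← Set.ncard_coe_finset S]
  refine Set.ncard_le_ncard_of_injOn (fun u => (u, x + x + l.sum - u)) ?_ ?_ hfin
  · intro u hu
    obtain ⟨_, h2, v, h3, h4⟩ := hS2 u hu
    refine ⟨h2, ?_, ?_⟩
    · show x + x + l.sum - u ∈ A
      rw [← h4, Nat.add_sub_cancel_left]
      exact h3
    · show u + (x + x + l.sum - u) = _
      omega
  · intro u _ v _ h
    exact (Prod.mk.inj h).1

/-- The differences `a (i + l) - a i` with `1 ≤ l ≤ L`, `i + l < T`, such that no index in
`[i, i + l)` is exceptional. -/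
def locDiff (a : ℕ → ℕ) (T : ℕ) (E : Finset ℕ) (L : ℕ) : Finset ℕ :=
  ((range T ×ˢ Icc 1 L).filter (fun p => p.1 + p.2 < T ∧ ∀ j ∈ Ico p.1 (p.1 + p.2), j ∉ E)).image
    (fun p => a (p.1 + p.2) - a p.1)

/-- The recursively defined bounds. -/
def D (δ : ℕ → ℕ) : ℕ → ℕ
  | 0 => 1
  | j + 1 => 4 * D δ j * δ (2 * D δ j)

theorem card_isolated (I : Finset ℕ) (T B : ℕ) (hI : I ⊆ range T) :
    (I.filter (fun i => ∀ l ∈ Icc 1 B, i + l ∉ I)).card ≤ T / (B + 1) + 1 := by
  have : (I.filter (fun i => ∀ l ∈ Icc 1 B, i + l ∉ I)).card ≤ (range (T / (B + 1) + 1)).card := by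
    refine Finset.card_le_card_of_injOn (fun i => i / (B + 1)) ?_ ?_
    · intro i hi
      have h1 : i ∈ I := (Finset.mem_filter.1 hi).1
      have h2 := Finset.mem_range.1 (hI h1)
      rw [Finset.mem_coe, Finset.mem_range]
      exact Nat.lt_succ_of_le (Nat.div_le_div_right h2.le)
    · have key : ∀ i ∈ I.filter (fun i => ∀ l ∈ Icc 1 B, i + l ∉ I),
          ∀ j ∈ I.filter (fun i => ∀ l ∈ Icc 1 B, i + l ∉ I), i < j →
          i / (B + 1) < j / (B + 1) := by
        intro i hi j hj hij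
        have h1 := (Finset.mem_filter.1 hi).2 (j - i)
        have h2 : j ∈ I := (Finset.mem_filter.1 hj).1
        have h3 : B + 1 ≤ j - i := by
          by_contra hc
          refine h1 (Finset.mem_Icc.2 ⟨by omega, by omega⟩) ?_
          rw [show i + (j - i) = j by omega]
          exact h2
        have h4 : i + (B + 1) ≤ j := by omega
        calc i / (B + 1) < i / (B + 1) + 1 := Nat.lt_succ_self _
          _ = (i + (B + 1)) / (B + 1) := by
              rw [Nat.add_div_right _ (Nat.succ_pos B)]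
          _ ≤ j / (B + 1) := Nat.div_le_div_right h4
      intro i hi j hj hij
      by_contra hne
      rcases lt_or_gt_of_ne hne with h | h
      · exact absurd hij (key i hi j hj h).ne
      · exact absurd hij (key j hj i hi h).ne'
  rwa [Finset.card_range] at this

theorem card_near (E : Finset ℕ) (T B : ℕ) :
    ((range T).filter (fun i => ∃ e ∈ E, i ≤ e ∧ e < i + B)).card ≤ E.card * B := by
  have h : (range T).filter (fun i => ∃ e ∈ E, i ≤ e ∧ e < i + B) ⊆
      E.biUnion (fun e => Icc (e + 1 - B) e) := by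
    intro i hi
    obtain ⟨e, he, h1, h2⟩ := (Finset.mem_filter.1 hi).2
    rw [Finset.mem_biUnion]
    exact ⟨e, he, Finset.mem_Icc.2 ⟨by omega, h1⟩⟩
  refine (Finset.card_le_card h).trans ?_
  refine Finset.card_biUnion_le_card_mul _ _ _ ?_
  intro e _
  rw [Nat.card_Icc]
  omega

theorem step {a : ℕ → ℕ} (ha : StrictMono a) {T : ℕ} (hT : 0 < T) {E : Finset ℕ} {δ : ℕ → ℕ}
    (hδ : ∀ L, (locDiff a T E L).card ≤ δ L) {hs : List ℕ}
    {I : Finset ℕ} (hI : I ⊆ range T) {d : ℕ} (hd : T ≤ I.card * d)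
    (hcube : ∀ i ∈ I, Cube (Set.range a) (a i) hs) (hbig : 8 * d ^ 2 * (E.card + 1) ≤ T) :
    ∃ h, 0 < h ∧ ∃ J : Finset ℕ, J ⊆ range T ∧ T ≤ J.card * (4 * d * δ (2 * d)) ∧
      ∀ i ∈ J, Cube (Set.range a) (a i) (h :: hs) := by
  classical
  have hdpos : 0 < d := by
    rcases Nat.eq_zero_or_pos d with rfl | h
    · omega
    · exact h
  set J : Finset ℕ := I.filter (fun i => ∃ l ∈ Icc 1 (2 * d), i + l ∈ I ∧
    ∀ j ∈ Ico i (i + l), j ∉ E) with hJ
  have hsub : I ⊆ (J ∪ I.filter (fun i => ∀ l ∈ Icc 1 (2 * d), i + l ∉ I)) ∪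
      (range T).filter (fun i => ∃ e ∈ E, i ≤ e ∧ e < i + 2 * d) := by
    intro i hi
    by_cases h1 : ∀ l ∈ Icc 1 (2 * d), i + l ∉ I
    · exact Finset.mem_union_left _ (Finset.mem_union_right _ (Finset.mem_filter.2 ⟨hi, h1⟩))
    · push Not at h1
      obtain ⟨l, hl, hl2⟩ := h1
      by_cases h2 : ∀ j ∈ Ico i (i + l), j ∉ E
      · exact Finset.mem_union_left _ (Finset.mem_union_left _
          (Finset.mem_filter.2 ⟨hi, l, hl, hl2, h2⟩))
      · push Not at h2
        obtain ⟨e, he, he2⟩ := h2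
        rw [Finset.mem_Ico] at he
        rw [Finset.mem_Icc] at hl
        exact Finset.mem_union_right _ (Finset.mem_filter.2 ⟨hI hi, e, he2, he.1, by omega⟩)
  have hcard : I.card ≤ (J.card + (T / (2 * d + 1) + 1)) + E.card * (2 * d) := by
    refine (Finset.card_le_card hsub).trans ((Finset.card_union_le _ _).trans ?_)
    exact Nat.add_le_add ((Finset.card_union_le _ _).trans
      (Nat.add_le_add_left (card_isolated I T (2 * d) hI) _)) (card_near E T (2 * d))
  have h1 : T / (2 * d + 1) * 2 ≤ I.card := by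
    have h2 : T / (2 * d + 1) * (2 * d + 1) ≤ T := Nat.div_mul_le_self _ _
    have h3 : T / (2 * d + 1) * 2 * d ≤ I.card * d := by nlinarith
    exact Nat.le_of_mul_le_mul_right h3 hdpos
  have h4 : 8 * d * (E.card + 1) ≤ I.card := by
    have : 8 * d * (E.card + 1) * d ≤ I.card * d := by nlinarith
    exact Nat.le_of_mul_le_mul_right this hdpos
  have h5 : I.card ≤ 4 * J.card := by nlinarith
  have hIpos : 0 < I.card := by nlinarith
  have hJpos : 0 < J.card := by omega
  -- choose the steps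
  have hex : ∀ i, ∃ l, i ∈ J → (l ∈ Icc 1 (2 * d) ∧ i + l ∈ I ∧ ∀ j ∈ Ico i (i + l), j ∉ E) := by
    intro i
    by_cases hi : i ∈ J
    · obtain ⟨l, hl, hl2⟩ := (Finset.mem_filter.1 hi).2
      exact ⟨l, fun _ => ⟨hl, hl2⟩⟩
    · exact ⟨0, fun h => absurd h hi⟩
  choose l hl using hex
  set f : ℕ → ℕ := fun i => a (i + l i) - a i with hf
  have himg : J.image f ⊆ locDiff a T E (2 * d) := by
    intro h hh
    obtain ⟨i, hi, rfl⟩ := Finset.mem_image.1 hh
    obtain ⟨h6, h7, h8⟩ := hl i hi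
    refine Finset.mem_image.2 ⟨(i, l i), ?_, rfl⟩
    have h9 := Finset.mem_range.1 (hI h7)
    exact Finset.mem_filter.2 ⟨Finset.mem_product.2 ⟨Finset.mem_range.2 (by simp only; omega), h6⟩,
      h9, h8⟩
  have hne : (J.image f).Nonempty := (Finset.card_pos.1 hJpos).image f
  obtain ⟨h, hh, hmax⟩ := Finset.exists_max_image (J.image f)
    (fun h => (J.filter (fun x => f x = h)).card) hne
  have hcJ : J.card ≤ (J.filter (fun x => f x = h)).card * (J.image f).card :=
    Finset.card_le_mul_card_image J _ hmax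
  obtain ⟨i0, hi0, hi0h⟩ := Finset.mem_image.1 hh
  refine ⟨h, ?_, J.filter (fun x => f x = h), ?_, ?_, ?_⟩
  · rw [← hi0h, hf]
    have h6 := (Finset.mem_Icc.1 (hl i0 hi0).1).1
    have := ha (show i0 < i0 + l i0 by omega)
    simp only
    omega
  · intro i hi
    exact hI (Finset.mem_filter.1 (Finset.mem_filter.1 hi).1).1
  · have h6 : J.card ≤ (J.filter (fun x => f x = h)).card * δ (2 * d) :=
      hcJ.trans (Nat.mul_le_mul_left _ ((Finset.card_le_card himg).trans (hδ _)))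
    calc T ≤ I.card * d := hd
      _ ≤ 4 * J.card * d := Nat.mul_le_mul_right _ h5
      _ ≤ 4 * ((J.filter (fun x => f x = h)).card * δ (2 * d)) * d := by
          gcongr
      _ = _ := by ring
  · intro i hi
    rw [Finset.mem_filter] at hi
    obtain ⟨hiJ, hih⟩ := hi
    obtain ⟨h6, h7, h8⟩ := hl i hiJ
    refine ⟨hcube i (Finset.mem_filter.1 hiJ).1, ?_⟩
    have h9 : a i ≤ a (i + l i) := ha.monotone (by omega)
    have h10 : a i + h = a (i + l i) := by
      rw [← hih, hf]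
      simp only
      omega
    rw [h10]
    exact hcube _ h7

theorem exists_cube {a : ℕ → ℕ} (ha : StrictMono a) {T : ℕ} (hT : 0 < T) {E : Finset ℕ}
    {δ : ℕ → ℕ} (hδ : ∀ L, (locDiff a T E L).card ≤ δ L) (m : ℕ)
    (hbig : ∀ j < m, 8 * D δ j ^ 2 * (E.card + 1) ≤ T) :
    ∃ hs : List ℕ, hs.length = m ∧ (∀ h ∈ hs, 0 < h) ∧ ∃ I : Finset ℕ, I ⊆ range T ∧
      T ≤ I.card * D δ m ∧ ∀ i ∈ I, Cube (Set.range a) (a i) hs := by
  induction m with
  | zero =>
    refine ⟨[], rfl, by simp, range T, le_refl _, by simp [D], ?_⟩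
    intro i _
    exact ⟨i, rfl⟩
  | succ m ih =>
    obtain ⟨hs, h1, h2, I, h3, h4, h5⟩ := ih (fun j hj => hbig j (by omega))
    obtain ⟨h, h6, J, h7, h8, h9⟩ := step ha hT hδ h3 h4 h5 (hbig m (by omega))
    refine ⟨h :: hs, by simp [h1], ?_, J, h7, h8, h9⟩
    intro k hk
    rcases List.mem_cons.1 hk with rfl | hk
    · exact h6
    · exact h2 k hk

/-- If `r_A ≤ m`, then `T < 8 D_j² (|E| + 1)` for some `j < m`. -/
theorem lt_of_rep_le {a : ℕ → ℕ} (ha : StrictMono a) {T : ℕ} (hT : 0 < T) {E : Finset ℕ}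
    {δ : ℕ → ℕ} (hδ : ∀ L, (locDiff a T E L).card ≤ δ L) (m : ℕ)
    (hm : ∀ n, rep (Set.range a) n ≤ m) : ∃ j < m, T < 8 * D δ j ^ 2 * (E.card + 1) := by
  by_contra hcon
  push Not at hcon
  obtain ⟨hs, h1, h2, I, h3, h4, h5⟩ := exists_cube ha hT hδ m hcon
  have hI : I.Nonempty := by
    rw [Finset.nonempty_iff_ne_empty]
    rintro rfl
    simp at h4
    omega
  obtain ⟨i, hi⟩ := hI
  have := rep_of_cube h2 (h5 i hi)
  have := hm (a i + a i + hs.sum)
  omega

end Pool.Agent.W99.ET
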