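import Pool.Agent.W99.ET.Gap

/-!
# Few distinct gaps
-/

set_option autoImplicit false

open Finset

namespace Pool.Agent.W99.ET

theorem inGAP_of_mem (G : Finset ℕ) (g : ℕ) (hg : g ∈ G) :
    InGAP (0 : ℤ) (fun k : Fin G.card => ((G.equivFin.symm k : ℕ) : ℤ)) (fun _ => 2) (g : ℤ) := by
  classical
  refine ⟨fun k => if k = G.equivFin ⟨g, hg⟩ then 1 else 0, ?_, ?_⟩
  · intro k
    simp only
    split_ifs <;> norm_num
  · simp

theorem few {a : ℕ → ℕ} (ha : StrictMono a) (G : Finset ℕ) (s T m : ℕ)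
    (hm : ∀ n, rep (Set.range a) n ≤ m + 1) :
    T ≤ ({j : ℕ | s ≤ j ∧ j < s + T ∧ a (j + 1) - a j ∉ G}.ncard + 1) *
      2 ^ (2 * (G.card + 2) * (G.card + 3) ^ m) := by
  have h1 := main_window (x0 := 0) (x := fun k : Fin G.card => ((G.equivFin.symm k : ℕ) : ℤ))
    (L := fun _ => 2) ha (fun _ => by norm_num) s T m hm
  have h2 : (4 * ∏ _k : Fin G.card, 2) ^ (2 * (G.card + 3) ^ m) =
      2 ^ (2 * (G.card + 2) * (G.card + 3) ^ m) := by
    rw [Finset.prod_const, Finset.card_univ, Fintype.card_fin,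
      show 4 * 2 ^ G.card = 2 ^ (G.card + 2) by rw [pow_add]; ring, ← pow_mul]
    congr 1
    ring
  rw [h2] at h1
  refine h1.trans (Nat.mul_le_mul_right _ (Nat.succ_le_succ ?_))
  have hfin : {j : ℕ | s ≤ j ∧ j < s + T ∧ a (j + 1) - a j ∉ G}.Finite :=
    (Set.finite_lt_nat (s + T)).subset fun j hj => hj.2.1
  refine Set.ncard_le_ncard ?_ hfin
  rintro j ⟨h3, h4, h5⟩
  refine ⟨h3, h4, fun hc => h5 ?_⟩
  have h6 := inGAP_of_mem G _ hc
  have h7 : a j ≤ a (j + 1) := ha.monotone (by omega)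
  rwa [Nat.cast_sub h7] at h6

/-- The set of the gaps `y - x` between consecutive elements `x < y` of `A` with `y ≤ N`. -/
def gaps (A : Set ℕ) (N : ℕ) : Set ℕ :=
  {g | ∃ x ∈ A, ∃ y ∈ A, x < y ∧ y ≤ N ∧ (∀ z ∈ A, z ≤ x ∨ y ≤ z) ∧ g = y - x}

theorem gaps_finite (A : Set ℕ) (N : ℕ) : (gaps A N).Finite := by
  refine (Set.finite_le_nat N).subset ?_
  rintro g ⟨x, _, y, _, _, h, _, rfl⟩
  show y - x ≤ N
  omega

theorem few_N {a : ℕ → ℕ} (ha : StrictMono a) {m : ℕ}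
    (hm : ∀ n, rep (Set.range a) n ≤ m + 1) {C : ℝ} (hC : ∀ n, (a n : ℝ) ≤ C * (n + 1) ^ 2) :
    ∃ C' : ℝ, ∀ N : ℕ, a 1 ≤ N → 1 ≤ N →
      Real.log N ≤ C' + 4 * (((gaps (Set.range a) N).ncard : ℝ) + 3) ^ (m + 1) := by
  have hCpos : 0 < C := by
    have h1 := hC 1
    have h2 : (1 : ℝ) ≤ a 1 := by
      have : 0 < a 1 := lt_of_le_of_lt (Nat.zero_le _) (ha (show 0 < 1 by norm_num))
      exact_mod_cast this
    by_contra hc
    push Not at hc
    have : C * ((1 : ℕ) + 1 : ℝ) ^ 2 ≤ 0 := mul_nonpos_of_nonpos_of_nonneg hc (by positivity)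
    linarith
  refine ⟨Real.log (9 * C), ?_⟩
  intro N hN1 hN
  classical
  set T := Nat.findGreatest (fun k => a k ≤ N) N with hT
  have hle : ∀ k, k ≤ a k := fun k => ha.id_le k
  have h1 : a T ≤ N := Nat.findGreatest_spec (P := fun k => a k ≤ N) (m := 1) (n := N) hN hN1
  have hT1 : 1 ≤ T := Nat.le_findGreatest hN hN1
  have h2 : N < a (T + 1) := by
    by_contra hc
    push Not at hc
    have h3 : T + 1 ≤ N := (hle _).trans hc
    have h4 : T + 1 ≤ Nat.findGreatest (fun k => a k ≤ N) N := Nat.le_findGreatest h3 hc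
    omega
  have hG := few ha (gaps_finite (Set.range a) N).toFinset 0 T m hm
  have hex : {j : ℕ | 0 ≤ j ∧ j < 0 + T ∧
      a (j + 1) - a j ∉ (gaps_finite (Set.range a) N).toFinset} = ∅ := by
    rw [Set.eq_empty_iff_forall_notMem]
    rintro j ⟨_, h3, h4⟩
    apply h4
    rw [Set.Finite.mem_toFinset]
    refine ⟨a j, ⟨j, rfl⟩, a (j + 1), ⟨j + 1, rfl⟩, ha (by omega), ?_, ?_, rfl⟩
    · exact (ha.monotone (by omega)).trans h1
    · rintro _ ⟨i, rfl⟩
      rcases Nat.lt_or_ge j i with h5 | h5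
      · exact Or.inr (ha.monotone (by omega))
      · exact Or.inl (ha.monotone h5)
  rw [hex, Set.ncard_empty, zero_add, one_mul] at hG
  have hK : (gaps_finite (Set.range a) N).toFinset.card = (gaps (Set.range a) N).ncard := by
    rw [Set.ncard_eq_toFinset_card _ (gaps_finite (Set.range a) N)]
  rw [hK] at hG
  set K := (gaps (Set.range a) N).ncard with hKdef
  have h5 : (N : ℝ) ≤ (9 * C) * (T : ℝ) ^ 2 := by
    have h6 : (N : ℝ) ≤ a (T + 1) := by exact_mod_cast h2.le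
    have h7 := hC (T + 1)
    have h8 : (1 : ℝ) ≤ T := by exact_mod_cast hT1
    push_cast at h7
    calc (N : ℝ) ≤ C * ((T : ℝ) + 1 + 1) ^ 2 := h6.trans h7
      _ ≤ C * (3 * T) ^ 2 := by
          gcongr
          linarith
      _ = _ := by ring
  have h6 : Real.log T ≤ 2 * ((K : ℝ) + 3) ^ (m + 1) := by
    have h7 : (T : ℝ) ≤ 2 ^ (2 * (K + 2) * (K + 3) ^ m) := by exact_mod_cast hG
    have h8 : Real.log T ≤ Real.log ((2 : ℝ) ^ (2 * (K + 2) * (K + 3) ^ m)) := by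
      refine Real.log_le_log ?_ h7
      exact_mod_cast hT1
    rw [Real.log_pow] at h8
    have h9 : Real.log 2 ≤ 1 := by
      have := Real.log_two_lt_d9
      linarith
    refine h8.trans ?_
    push_cast
    calc 2 * ((K : ℝ) + 2) * ((K : ℝ) + 3) ^ m * Real.log 2
        ≤ 2 * ((K : ℝ) + 2) * ((K : ℝ) + 3) ^ m * 1 := by gcongr
      _ ≤ 2 * ((K : ℝ) + 3) * ((K : ℝ) + 3) ^ m := by
          rw [mul_one]
          gcongr
          norm_num
      _ = _ := by ring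
  have h7 : Real.log N ≤ Real.log (9 * C) + 2 * Real.log T := by
    have hTpos : (0 : ℝ) < T := by exact_mod_cast hT1
    have hNpos : (0 : ℝ) < N := by exact_mod_cast hN
    calc Real.log N ≤ Real.log (9 * C * (T : ℝ) ^ 2) := Real.log_le_log hNpos h5
      _ = Real.log (9 * C) + Real.log ((T : ℝ) ^ 2) :=
          Real.log_mul (by positivity) (by positivity)
      _ = _ := by
          rw [Real.log_pow]
          norm_num
  calc Real.log N ≤ Real.log (9 * C) + 2 * Real.log T := h7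
    _ ≤ Real.log (9 * C) + 2 * (2 * ((K : ℝ) + 3) ^ (m + 1)) := by gcongr
    _ = _ := by ring

theorem unbounded_of_few {a : ℕ → ℕ} (ha : StrictMono a) {C : ℝ}
    (hC : ∀ n, (a n : ℝ) ≤ C * (n + 1) ^ 2)
    (hfew : ∀ M : ℕ, ∃ᶠ N : ℕ in Filter.atTop,
      ((gaps (Set.range a) N).ncard : ℝ) ^ M ≤ Real.log N) (M : ℕ) :
    ∃ n, M < rep (Set.range a) n := by
  by_contra hcon
  push Not at hcon
  obtain ⟨C', hC'⟩ := few_N ha (m := M) (fun n => (hcon n).trans (by omega)) hC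
  obtain ⟨K0, hK0⟩ := exists_nat_gt (|C'| + 4 * 2 ^ (M + 1) + 3)
  have hlog : Filter.Tendsto (fun N : ℕ => Real.log N) Filter.atTop Filter.atTop :=
    Real.tendsto_log_atTop.comp tendsto_natCast_atTop_atTop
  have hev := (hlog.eventually_gt_atTop (C' + 4 * ((K0 : ℝ) + 3) ^ (M + 1))).and
    ((Filter.eventually_ge_atTop (a 1)).and (Filter.eventually_ge_atTop 1))
  obtain ⟨N, hN1, hN2, hN3, hN4⟩ := ((hfew (M + 2)).and_eventually hev).exists
  have h1 := hC' N hN3 hN4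
  set K := (gaps (Set.range a) N).ncard with hK
  have hC0 : C' ≤ |C'| := le_abs_self _
  have hC00 : 0 ≤ |C'| := abs_nonneg _
  rcases lt_or_ge K K0 with h | h
  · have h2 : (K : ℝ) ≤ K0 := by exact_mod_cast h.le
    have h3 : ((K : ℝ) + 3) ^ (M + 1) ≤ ((K0 : ℝ) + 3) ^ (M + 1) := by gcongr
    linarith
  · have h2 : (K0 : ℝ) ≤ K := by exact_mod_cast h
    have hp : (0 : ℝ) < 2 ^ (M + 1) := by positivity
    have h3 : (3 : ℝ) ≤ K := by linarith
    have h4 : ((K : ℝ) + 3) ^ (M + 1) ≤ 2 ^ (M + 1) * (K : ℝ) ^ (M + 1) := by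
      rw [← mul_pow]
      gcongr
      linarith
    have h5 : (1 : ℝ) ≤ (K : ℝ) ^ (M + 1) := one_le_pow₀ (by linarith)
    have h6 : (K : ℝ) ^ (M + 2) = K * (K : ℝ) ^ (M + 1) := by ring
    rw [h6] at hN1
    have h7 : (|C'| + 4 * 2 ^ (M + 1) + 3) * (K : ℝ) ^ (M + 1) ≤ K * (K : ℝ) ^ (M + 1) := by
      gcongr
      linarith
    nlinarith

theorem thick_of_basis {A : Set ℕ} (h : ∀ᶠ n : ℕ in Filter.atTop, 1 ≤ rep A n) :
    A.Infinite ∧ ∃ C : ℝ, ∀ n, (Nat.nth (· ∈ A) n : ℝ) ≤ C * (n + 1) ^ 2 := by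
  classical
  obtain ⟨n0, hn0⟩ := Filter.eventually_atTop.1 h
  have hex : ∀ n, n0 ≤ n → ∃ u ∈ A, ∃ v ∈ A, u + v = n := by
    intro n hn
    have h1 := hn0 n hn
    have h2 : {p : ℕ × ℕ | p.1 ∈ A ∧ p.2 ∈ A ∧ p.1 + p.2 = n}.Nonempty := by
      by_contra h3
      rw [Set.not_nonempty_iff_eq_empty] at h3
      unfold rep at h1
      rw [h3, Set.ncard_empty] at h1
      omega
    obtain ⟨p, h3, h4, h5⟩ := h2
    exact ⟨p.1, h3, p.2, h4, h5⟩
  have hinf : A.Infinite := by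
    intro hfin
    obtain ⟨b, hb⟩ := hfin.bddAbove
    obtain ⟨u, hu, v, hv, huv⟩ := hex (n0 + 2 * b + 1) (by omega)
    have := hb hu
    have := hb hv
    omega
  refine ⟨hinf, n0 + 1, ?_⟩
  intro k
  set a : ℕ → ℕ := Nat.nth (· ∈ A) with ha
  have hmono : StrictMono a := Nat.nth_strictMono hinf
  have hrange : Set.range a = A := Nat.range_nth_of_infinite hinf
  have hsub : Finset.Ico n0 (a k) ⊆
      (Finset.range k ×ˢ Finset.range k).image (fun p => a p.1 + a p.2) := by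
    intro n hn
    rw [Finset.mem_Ico] at hn
    obtain ⟨u, hu, v, hv, huv⟩ := hex n hn.1
    rw [← hrange] at hu hv
    obtain ⟨i, rfl⟩ := hu
    obtain ⟨j, rfl⟩ := hv
    have hi : i < k := by
      rw [← hmono.lt_iff_lt]
      omega
    have hj : j < k := by
      rw [← hmono.lt_iff_lt]
      omega
    exact Finset.mem_image.2 ⟨(i, j), Finset.mem_product.2 ⟨Finset.mem_range.2 hi,
      Finset.mem_range.2 hj⟩, huv⟩
  have h1 := (Finset.card_le_card hsub).trans Finset.card_image_le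
  rw [Nat.card_Ico, Finset.card_product, Finset.card_range] at h1
  have h2 : a k ≤ k * k + n0 := by omega
  have h3 : (a k : ℝ) ≤ k * k + n0 := by exact_mod_cast h2
  have h4 : (0 : ℝ) ≤ k := Nat.cast_nonneg k
  have h5 : (0 : ℝ) ≤ n0 := Nat.cast_nonneg n0
  nlinarith [mul_nonneg h5 h4, mul_nonneg (mul_nonneg h5 h4) h4]

end Pool.Agent.W99.ET
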