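import Pool.Agent.W99.ET.Core

/-!
# Gaps in generalised arithmetic progressions
-/

set_option autoImplicit false

open Finset

namespace Pool.Agent.W99.ET

/-- `g` belongs to the generalised arithmetic progression
`{x₀ + c₁ x₁ + ⋯ + c_d x_d : 0 ≤ c_k < L_k}`. -/
def InGAP {d : ℕ} (x0 : ℤ) (x : Fin d → ℤ) (L : Fin d → ℕ) (g : ℤ) : Prop :=
  ∃ c : Fin d → ℕ, (∀ k, c k < L k) ∧ g = x0 + ∑ k, (c k : ℤ) * x k

theorem sum_gaps {d : ℕ} {x0 : ℤ} {x : Fin d → ℤ} {L : Fin d → ℕ} {a : ℕ → ℕ} (i : ℕ) :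
    ∀ l : ℕ, (∀ j, i ≤ j → j < i + l → InGAP x0 x L ((a (j + 1) : ℤ) - a j)) →
      ∃ n : Fin d → ℕ, (∀ k, n k ≤ l * (L k - 1)) ∧
        ((a (i + l) : ℤ) - a i) = l * x0 + ∑ k, (n k : ℤ) * x k
  | 0, _ => ⟨fun _ => 0, by simp, by simp⟩
  | l + 1, h => by
      obtain ⟨n, h1, h2⟩ := sum_gaps i l (fun j hj hj2 => h j hj (by omega))
      obtain ⟨c, h3, h4⟩ := h (i + l) (by omega) (by omega)
      refine ⟨fun k => n k + c k, ?_, ?_⟩
      · intro k
        have := h1 k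
        have := h3 k
        rw [add_mul, one_mul]
        show n k + c k ≤ _
        omega
      · have h5 : ((a (i + (l + 1)) : ℤ) - a i) = ((a (i + l) : ℤ) - a i) +
            ((a (i + l + 1) : ℤ) - a (i + l)) := by
          rw [show i + (l + 1) = i + l + 1 by ring]
          ring
        rw [h5, h2, h4]
        push_cast
        simp only [add_mul, Finset.sum_add_distrib]
        ring

theorem card_locDiff_le {d : ℕ} {x0 : ℤ} {x : Fin d → ℤ} {L : Fin d → ℕ} {a : ℕ → ℕ}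
    (ha : StrictMono a) (hL : ∀ k, 1 ≤ L k) (T : ℕ) (E : Finset ℕ)
    (hE : ∀ j < T, j ∉ E → InGAP x0 x L ((a (j + 1) : ℤ) - a j)) (B : ℕ) :
    (locDiff a T E B).card ≤ B ^ (d + 1) * ∏ k, L k := by
  classical
  set S : Finset (ℕ × (Fin d → ℕ)) := Icc 1 B ×ˢ Fintype.piFinset (fun k => range (B * L k))
    with hS
  have h1 : (locDiff a T E B).image (fun n : ℕ => (n : ℤ)) ⊆
      S.image (fun p => (p.1 : ℤ) * x0 + ∑ k, (p.2 k : ℤ) * x k) := by
    intro z hz
    obtain ⟨n, hn, rfl⟩ := Finset.mem_image.1 hz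
    obtain ⟨⟨i, l⟩, hp, rfl⟩ := Finset.mem_image.1 hn
    rw [Finset.mem_filter, Finset.mem_product, Finset.mem_Icc, Finset.mem_range] at hp
    obtain ⟨⟨hi, hl1, hl2⟩, hT, hgood⟩ := hp
    simp only at hi hl1 hl2 hT hgood
    obtain ⟨n, h2, h3⟩ := sum_gaps (x0 := x0) (x := x) (L := L) (a := a) i l (by
      intro j hj hj2
      exact hE j (by omega) (hgood j (Finset.mem_Ico.2 ⟨hj, hj2⟩)))
    refine Finset.mem_image.2 ⟨(l, n), ?_, ?_⟩
    · rw [hS, Finset.mem_product, Finset.mem_Icc, Fintype.mem_piFinset]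
      refine ⟨⟨hl1, hl2⟩, ?_⟩
      intro k
      rw [Finset.mem_range]
      have h4 := h2 k
      have h5 := hL k
      have h6 : l * (L k - 1) ≤ B * (L k - 1) := Nat.mul_le_mul_right _ hl2
      have h7 : B * (L k - 1) < B * L k := by
        apply Nat.mul_lt_mul_of_pos_left (by omega) (by omega)
      exact lt_of_le_of_lt (h4.trans h6) h7
    · have h4 : a i ≤ a (i + l) := ha.monotone (by omega)
      show (l : ℤ) * x0 + ∑ k, (n k : ℤ) * x k = ((a (i + l) - a i : ℕ) : ℤ)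
      rw [Nat.cast_sub h4, h3]
  have h2 : ((locDiff a T E B).image (fun n : ℕ => (n : ℤ))).card = (locDiff a T E B).card :=
    Finset.card_image_of_injective _ Nat.cast_injective
  rw [← h2]
  refine (Finset.card_le_card h1).trans (Finset.card_image_le.trans ?_)
  rw [hS, Finset.card_product, Nat.card_Icc, Fintype.card_piFinset]
  simp only [Finset.card_range, Finset.prod_mul_distrib, Finset.prod_const, Finset.card_univ,
    Fintype.card_fin, Nat.add_sub_cancel]
  rw [pow_succ]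
  exact le_of_eq (by ring)

theorem D_le (d P : ℕ) (hP : 1 ≤ P) : ∀ j,
    D (fun B => B ^ (d + 1) * P) j ≤ (4 * P) ^ ((d + 3) ^ j - 1)
  | 0 => by simp [D]
  | j + 1 => by
      have ih := D_le d P hP j
      set X := D (fun B => B ^ (d + 1) * P) j with hX
      have h1 : D (fun B => B ^ (d + 1) * P) (j + 1) = 4 * X * ((2 * X) ^ (d + 1) * P) := rfl
      rw [h1]
      have h2 : 4 * X * ((2 * X) ^ (d + 1) * P) = (4 * P * 2 ^ (d + 1)) * X ^ (d + 2) := by
        rw [mul_pow]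
        ring
      rw [h2]
      have h3 : 4 * P * 2 ^ (d + 1) ≤ (4 * P) ^ (d + 2) := by
        calc 4 * P * 2 ^ (d + 1) ≤ 4 * P * (4 * P) ^ (d + 1) := by
              gcongr
              omega
          _ = _ := by ring
      calc (4 * P * 2 ^ (d + 1)) * X ^ (d + 2)
          ≤ (4 * P) ^ (d + 2) * ((4 * P) ^ ((d + 3) ^ j - 1)) ^ (d + 2) := by
            gcongr
        _ = (4 * P) ^ ((d + 2) + ((d + 3) ^ j - 1) * (d + 2)) := by
            rw [← pow_mul, ← pow_add]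
        _ ≤ (4 * P) ^ ((d + 3) ^ (j + 1) - 1) := by
            refine Nat.pow_le_pow_right (by omega) ?_
            have h4 : 1 ≤ (d + 3) ^ j := Nat.one_le_pow _ _ (by omega)
            obtain ⟨y, hy⟩ := Nat.exists_eq_add_of_le h4
            rw [pow_succ, hy]
            have : 1 + y - 1 = y := by omega
            rw [this]
            have h5 : (1 + y) * (d + 3) = (d + 3) + y * (d + 2) + y := by ring
            rw [h5]
            omega

/-- The main inequality for the first `T` gaps. -/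
theorem main {d : ℕ} {x0 : ℤ} {x : Fin d → ℤ} {L : Fin d → ℕ} {a : ℕ → ℕ}
    (ha : StrictMono a) (hL : ∀ k, 1 ≤ L k) (T : ℕ) (E : Finset ℕ)
    (hE : ∀ j < T, j ∉ E → InGAP x0 x L ((a (j + 1) : ℤ) - a j)) (m : ℕ)
    (hm : ∀ n, rep (Set.range a) n ≤ m + 1) :
    T ≤ (E.card + 1) * (4 * ∏ k, L k) ^ (2 * (d + 3) ^ m) := by
  rcases Nat.eq_zero_or_pos T with rfl | hT
  · exact Nat.zero_le _
  set P := ∏ k, L k with hP
  have hP1 : 1 ≤ P := by
    rw [hP]
    exact Nat.succ_le_of_lt (Finset.prod_pos fun k _ => hL k)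
  obtain ⟨j, hj, h1⟩ := lt_of_rep_le ha hT
    (δ := fun B => B ^ (d + 1) * P) (card_locDiff_le ha hL T E hE) (m + 1) hm
  refine h1.le.trans ?_
  have h2 := D_le d P hP1 j
  have h3 : (d + 3) ^ j ≤ (d + 3) ^ m := Nat.pow_le_pow_right (by omega) (by omega)
  have h4 : 1 ≤ (d + 3) ^ j := Nat.one_le_pow _ _ (by omega)
  have h5 : 8 * D (fun B => B ^ (d + 1) * P) j ^ 2 ≤ (4 * P) ^ (2 * (d + 3) ^ m) := by
    calc 8 * D (fun B => B ^ (d + 1) * P) j ^ 2 ≤ (4 * P) ^ 2 * ((4 * P) ^ ((d + 3) ^ j - 1)) ^ 2 := by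
          gcongr
          nlinarith
      _ = (4 * P) ^ (2 + ((d + 3) ^ j - 1) * 2) := by
          rw [← pow_mul, ← pow_add]
      _ ≤ _ := by
          refine Nat.pow_le_pow_right (by omega) ?_
          omega
  calc 8 * D (fun B => B ^ (d + 1) * P) j ^ 2 * (E.card + 1)
      ≤ (4 * P) ^ (2 * (d + 3) ^ m) * (E.card + 1) := Nat.mul_le_mul_right _ h5
    _ = _ := by ring

theorem rep_mono {A B : Set ℕ} (h : A ⊆ B) (n : ℕ) : rep A n ≤ rep B n := by
  unfold rep
  refine Set.ncard_le_ncard ?_ ?_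
  · rintro p ⟨h1, h2, h3⟩
    exact ⟨h h1, h h2, h3⟩
  · refine ((Finset.range (n + 1) ×ˢ Finset.range (n + 1)).finite_toSet).subset ?_
    rintro ⟨p, q⟩ ⟨_, _, h⟩
    simp only [Finset.coe_product, Finset.coe_range, Set.mem_prod, Set.mem_Iio]
    simp only at h
    omega

/-- The version for `T` consecutive gaps starting anywhere. -/
theorem main_window {d : ℕ} {x0 : ℤ} {x : Fin d → ℤ} {L : Fin d → ℕ} {a : ℕ → ℕ}
    (ha : StrictMono a) (hL : ∀ k, 1 ≤ L k) (s T : ℕ) (m : ℕ)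
    (hm : ∀ n, rep (Set.range a) n ≤ m + 1) :
    T ≤ ({j : ℕ | s ≤ j ∧ j < s + T ∧ ¬ InGAP x0 x L ((a (j + 1) : ℤ) - a j)}.ncard + 1) *
      (4 * ∏ k, L k) ^ (2 * (d + 3) ^ m) := by
  classical
  set b : ℕ → ℕ := fun n => a (s + n) with hb
  have hbm : StrictMono b := fun i j hij => ha (by omega)
  have hsub : Set.range b ⊆ Set.range a := by
    rintro _ ⟨n, rfl⟩
    exact ⟨s + n, rfl⟩
  set E : Finset ℕ := (range T).filter (fun j => ¬ InGAP x0 x L ((b (j + 1) : ℤ) - b j)) with hEdef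
  have h1 := main (x0 := x0) (x := x) hbm hL T E (by
    intro j hj hjE
    by_contra hc
    exact hjE (Finset.mem_filter.2 ⟨Finset.mem_range.2 hj, hc⟩)) m
    (fun n => (rep_mono hsub n).trans (hm n))
  refine h1.trans (Nat.mul_le_mul_right _ (Nat.succ_le_succ ?_))
  have hfin : {j : ℕ | s ≤ j ∧ j < s + T ∧ ¬ InGAP x0 x L ((a (j + 1) : ℤ) - a j)}.Finite :=
    (Set.finite_lt_nat (s + T)).subset fun j hj => hj.2.1
  rw [← Set.ncard_coe_finset E]
  refine Set.ncard_le_ncard_of_injOn (fun j => s + j) ?_ ?_ hfin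
  · intro j hj
    rw [Finset.mem_coe, hEdef, Finset.mem_filter, Finset.mem_range] at hj
    exact ⟨by omega, by omega, hj.2⟩
  · intro i _ j _ hij
    simp only at hij
    omega

end Pool.Agent.W99.ET
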